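import Pool.Agent.L5helper5.WP.Main

/-!
# A finitely generated nonsolvable group whose word problem is not hard for `ALOGTIME`
-/

set_option autoImplicit false

namespace Pool.Agent.Results.MP_458e77_lc.NonsolvableNotHard

open Pool.Agent.L5helper5.WP

/-- There is a finitely generated nonsolvable group `G` whose word problem, over any finite
alphabet `A` that is mapped to `G` by some `φ`, is not hard for `ALOGTIME`, even under
non-uniform `AC⁰` Turing reductions: the language `PARITY` is not reducible to it. -/
theorem result : ∃ (G : Type) (_ : Group G), Group.FG G ∧ ¬ Group.IsSolvable G ∧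
    ∀ (A : Type) [Finite A] (φ : A → G),
      ¬ AC0Reducible PARITY {w : List A | (w.map φ).prod = 1} ∧
      ¬ ALOGTIMEHard {w : List A | (w.map φ).prod = 1} := by
  refine ⟨Gk 0, inferInstance, fg 0, not_solvable 0, fun A _ φ => ?_⟩
  have h := parity_not_reducible φ
  exact ⟨h, fun hard => h (hard PARITY parity_mem)⟩

end Pool.Agent.Results.MP_458e77_lc.NonsolvableNotHard
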